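import Pool.Agent.Y833.CJ.Xq1

/-!
# CB3-J-XFAQ: expansion of the trace for `χ` in the upper half plane
-/

set_option autoImplicit false

namespace Pool.Agent.Y833.CJ

open Finset Filter Topology Metric
open Pool.Agent.W711.HT
open Pool.Agent.Y472
open Pool.Agent.Y481 (itI itN Sep wts cw)
open Pool.Agent.W719.AX (UX EXY)
open Pool.Agent.Y482.Ph (EXL GXc S_LOCN S_WX KXD3 S_EXP kx3)
open Pool.Agent.Y674.CB Pool.Agent.Y809.CH
open scoped Real

/-- XFAQ: expansion of the trace for `χ` in the upper half plane -/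
theorem xfaq : S_XFAQ := by
  intro hPOTA hCRA hELA hFRD hGPA hKFF hKRZ hKB hMWK hLOC hELQ hWX ρ₀ c C s dl hS hA
  obtain ⟨ρ₂, A₂, hρ2, hKX⟩ := hA
  have hρ2p := hKX.hρ
  obtain ⟨R₀', c₀', hR0', hR0ρ', hc0', hPr⟩ := Pool.Agent.Y837.CB.pot ρ₀ c C s dl hS
  have hρ := hS.hρ
  have hρ0 := hρ.1
  have hC := hS.hC
  have hπ := Real.pi_gt_three
  have hc1 := c1_pos
  obtain ⟨R₀, c', B₀, p₀, hR0, hR00, hP⟩ := hPOTA ρ₀ c C s dl hS
  obtain ⟨RG, c₂, B₂, C', MG, hRG, hRG0, hc2, hB2, hC', hMG, hG⟩ := hGPA ρ₀ c C s dl hS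
  obtain ⟨ρ₁, hρ1, hρ10, HM⟩ := hMWK hKB ρ₀ c C s dl hS
  obtain ⟨⟨ρs, hρs, hρs1, HB⟩, _⟩ := hKB
  obtain ⟨hB0, hp₀, hbet⟩ : 0 < B₀ ∧ 0 < p₀ ∧ 0 < bet := by
    obtain ⟨B', hB'⟩ := hP R₀ hR0 le_rfl 2 le_rfl
    have h := hB' 0 (rc_zero hR0)
    refine ⟨h.hB, h.hp, ?_⟩
    have h1 := h.pot.pos 0 (fun i _ => rc_zero hR0)
    have h2 : Sx s 2 0 0 = ((4 * bet : ℝ) : ℂ) := by
      unfold Sx
      simp only [Pi.zero_apply, hS.zero, sum_const, card_range, nsmul_eq_mul]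
      push_cast
      ring
    rw [h2, Complex.ofReal_re] at h1
    have h3 := h.hp
    push_cast at h1
    linarith
  obtain ⟨τK, hτK, HR⟩ := hKRZ (bet / 2) (by positivity)
  have HR' : RK τK := HR
  obtain ⟨R₃, hR3, hs3⟩ := radius hS hbet
  -- the radius of the box of the variables `ψ`
  obtain ⟨R₁, hR1, a1, a2, a3, a4, a5, a6, a7, a8, a9, a10, a11⟩ : ∃ R₁ : ℝ, 0 < R₁ ∧ R₁ ≤ R₀ ∧
      R₁ ≤ ρ₁ ∧ R₁ ≤ τK ∧ R₁ ≤ ρs ∧ R₁ ≤ ρ₀ / 4 ∧ R₁ ≤ R₃ ∧ R₁ ≤ c1 / (64 * C) ∧ R₁ ≤ bet ∧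
      R₁ ≤ 1 ∧ R₁ ≤ ρ₂ ∧ R₁ ≤ R₀' := by
    refine ⟨min (min (min R₀ ρ₁) (min τK ρs)) (min (min (ρ₀ / 4) R₃) (min (c1 / (64 * C))
      (min bet (min 1 (min ρ₂ R₀'))))), ?_, ?_, ?_, ?_, ?_, ?_, ?_, ?_, ?_, ?_, ?_, ?_⟩
    · exact lt_min (lt_min (lt_min hR0 hρ1) (lt_min hτK hρs)) (lt_min (lt_min (by positivity) hR3)
        (lt_min (by positivity) (lt_min hbet (lt_min one_pos (lt_min hρ2p hR0')))))
    · exact (min_le_left _ _).trans ((min_le_left _ _).trans (min_le_left _ _))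
    · exact (min_le_left _ _).trans ((min_le_left _ _).trans (min_le_right _ _))
    · exact (min_le_left _ _).trans ((min_le_right _ _).trans (min_le_left _ _))
    · exact (min_le_left _ _).trans ((min_le_right _ _).trans (min_le_right _ _))
    · exact (min_le_right _ _).trans ((min_le_left _ _).trans (min_le_left _ _))
    · exact (min_le_right _ _).trans ((min_le_left _ _).trans (min_le_right _ _))
    · exact (min_le_right _ _).trans ((min_le_right _ _).trans (min_le_left _ _))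
    · exact (min_le_right _ _).trans ((min_le_right _ _).trans ((min_le_right _ _).trans
        (min_le_left _ _)))
    · exact (min_le_right _ _).trans ((min_le_right _ _).trans ((min_le_right _ _).trans
        ((min_le_right _ _).trans (min_le_left _ _))))
    · exact (min_le_right _ _).trans ((min_le_right _ _).trans ((min_le_right _ _).trans
        ((min_le_right _ _).trans ((min_le_right _ _).trans (min_le_left _ _)))))
    · exact (min_le_right _ _).trans ((min_le_right _ _).trans ((min_le_right _ _).trans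
        ((min_le_right _ _).trans ((min_le_right _ _).trans (min_le_right _ _)))))
  obtain ⟨r, hr⟩ : ∃ r : ℝ, r = R₁ / 8 := ⟨_, rfl⟩
  have hr0 : 0 < r := by rw [hr]; positivity
  have h8r : 8 * r = R₁ := by rw [hr]; ring
  have hsq : R₁ ^ 2 ≤ R₁ := by
    rw [sq]
    exact mul_le_of_le_one_left hR1.le a9
  have hCr : 4096 * C * r ^ 2 ≤ c1 := by
    have e : 4096 * C * r ^ 2 = 64 * C * R₁ ^ 2 := by rw [hr]; ring
    rw [e]
    calc 64 * C * R₁ ^ 2 ≤ 64 * C * (c1 / (64 * C)) :=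
          mul_le_mul_of_nonneg_left (hsq.trans a7) (by positivity)
      _ = c1 := by field_simp
  have hc11 : c1 ≤ 1 := by
    unfold c1
    rw [div_le_one (by positivity)]
    linarith
  have hqb : c1 * r ^ 2 ≤ bet / 4 := by
    have e : c1 * r ^ 2 ≤ 1 * r ^ 2 := mul_le_mul_of_nonneg_right hc11 (sq_nonneg _)
    have e2 : r ^ 2 = R₁ ^ 2 / 64 := by rw [hr]; ring
    linarith
  have hq0 : 0 < c1 * r ^ 2 := by positivity
  obtain ⟨τB, hτB, HBq⟩ := HB (c1 * r ^ 2 / 8) (by positivity)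
  have HBq' : BK ρs (c1 * r ^ 2 / 8) τB := HBq
  obtain ⟨τ, hτ, hτB', hτK', hτr⟩ : ∃ τ : ℝ, 0 < τ ∧ τ ≤ τB ∧ τ ≤ τK ∧ τ ≤ r :=
    ⟨min τB (min τK r), lt_min hτB (lt_min hτK hr0), min_le_left _ _,
      (min_le_right _ _).trans (min_le_left _ _), (min_le_right _ _).trans (min_le_right _ _)⟩
  obtain ⟨B, hB⟩ : ∃ B : ℝ, B = B₀ + 4 * C / ρ₀ ^ 2 := ⟨_, rfl⟩
  have hq1 : 0 < 4 * C / ρ₀ ^ 2 := by positivity
  have hBB0 : B₀ ≤ B := by rw [hB]; linarith
  have hBq : 4 * C / ρ₀ ^ 2 ≤ B := by rw [hB]; linarith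
  obtain ⟨Cc, Mc, hCc, hMc, HCR⟩ := hCRA R₁ c' B p₀
  obtain ⟨Me, hMe, HEL⟩ := hELA R₁ c' B p₀ Cc hCc
  obtain ⟨Mf, hMf, HFR⟩ := hFRD R₁ c' B p₀ Cc (c1 * r ^ 2 / 4) τ hCc (by positivity) hτ
  obtain ⟨Mq, hMq, HQ⟩ := hELQ hLOC R₁ c' B p₀ Cc hCc
  obtain ⟨R, hR, b1, b2, b3⟩ : ∃ R : ℝ, 0 < R ∧ R ≤ RG ∧ R ≤ r / 8 ∧ R ≤ τB :=
    ⟨min RG (min (r / 8) τB), lt_min hRG (lt_min (by positivity) hτB), min_le_left _ _,
      (min_le_right _ _).trans (min_le_left _ _), (min_le_right _ _).trans (min_le_right _ _)⟩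
  obtain ⟨M, hM⟩ : ∃ M : ℝ, M = Mc + Me + Mf + MG + 4 * C' / R₁ + Mq :=
    ⟨_, rfl⟩
  have p1 : 0 < 4 * C' / R₁ := by positivity
  have hM1 : Mc ≤ M := by rw [hM]; linarith
  have hM2 : Me ≤ M := by rw [hM]; linarith
  have hM3 : Mf ≤ M := by rw [hM]; linarith
  have hM4 : MG ≤ M := by rw [hM]; linarith
  have hM5 : 4 * C' / R₁ ≤ M := by rw [hM]; linarith
  have hM6 : Mq ≤ M := by rw [hM]; linarith
  have hM0 : 0 < M := by linarith
  refine ⟨R, 2 * c₂, 2 * B₂, 2 * C', M, hR, by linarith, by linarith, by positivity, by positivity,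
    by positivity, hM0, fun k hk ls hls hlsM => ?_⟩
  obtain ⟨n, hn⟩ : ∃ n, n = 2 * k := ⟨_, rfl⟩
  have hn2 : 2 ≤ n := by omega
  have hnR : (0 : ℝ) < n := by exact_mod_cast (by omega : 0 < n)
  have hnk : (n : ℝ) = 2 * k := by rw [hn]; push_cast; ring
  have hnC : (n : ℂ) = 2 * k := by rw [hn]; push_cast; ring
  have hls2 : 2 * ls.length = n := by rw [hls, hn]
  have hlsn : ls ≠ [] := by
    rintro rfl
    simp only [List.length_nil] at hls
    omega
  have hcw : ∀ i < n, M ≤ |(cw ls i : ℝ)| := fun i hi => cw_bound hlsM (by rw [hls]; omega)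
  obtain ⟨G, z, hGd, hG1, hG2, hG3⟩ := hG n hn2 (cw ls) fun j hj => hM4.trans (hcw j hj)
  have hsub : Rc R R ⊆ Rc RG RG := rc_mono b1
  have hsub0 : Rc R R ⊆ Rc ρ₀ ρ₀ := rc_mono (by linarith)
  obtain ⟨B', hPB⟩ := hP R₁ hR1 a1 n hn2
  refine ⟨G, z, hGd.mono hsub, ?_, ?_, ?_, ?_⟩
  · intro χ hχ
    obtain ⟨h1, h2, h3⟩ := hG1 χ (hsub hχ)
    rw [hnk] at h2 h3
    exact ⟨h1, by linarith, by linarith⟩
  · -- asymptotics
    intro K hKc hKsub hKim
    have hval : ∀ χ ∈ K, ∀ (zz : ℕ → (ℕ → ℂ) → ℕ → ℂ),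
        Crt n R₁ c' B' (p₀ * n) Cc (Sx s n χ) (Dx s n χ) (cw ls) zz →
        Uj (Sx s n χ) (cw ls) n (zz n 0) = G χ := by
      intro χ hχ zz hcr
      obtain ⟨h1, h2, h3⟩ := hG2 χ (hsub (hKsub hχ))
      rw [h3]
      refine crit_eq hS hn2 hR1 (by linarith) (hsub0 (hKsub hχ)) hcr ?_ fun j hj => ?_
      · intro j hj
        have h4 := (h1 j hj).1
        refine rc_norm (h4.trans_lt ?_)
        have h5 : C' / |(cw ls j : ℝ)| ≤ C' / M :=
          div_le_div_of_nonneg_left hC'.le hM0 (hcw j hj)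
        have h6 : C' / M ≤ R₁ / 4 := by
          rw [div_le_iff₀ hR1] at hM5
          rw [div_le_div_iff₀ hM0 (by norm_num)]
          linarith
        linarith
      · exact (h1 j hj).2.2.2.2
    have hGc : ContinuousOn (fun χ => (G χ).re) K := by
      intro χ hχ
      have h := (hGd.differentiableAt ((rc_open RG RG).mem_nhds (hsub (hKsub hχ)))).continuousAt
      exact (Complex.continuous_re.continuousAt.comp h).continuousWithinAt
    have hPK : ∀ χ ∈ K, PotA n R₁ c' B p₀ B' (Sx s n χ) (Dx s n χ) := fun χ hχ =>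
      potA_mono (hPB χ (rc_mono (by linarith) (hKsub hχ))) hBB0
    have hZ : ∀ χ ∈ K, ∃ zz : ℕ → (ℕ → ℂ) → ℕ → ℂ,
        Crt n R₁ c' B' (p₀ * n) Cc (Sx s n χ) (Dx s n χ) (cw ls) zz := fun χ hχ =>
      HCR n B' _ _ (hPK χ hχ) (cw ls) fun j hj => hM1.trans (hcw j hj)
    have hfs : ∀ (p : ℕ → ℂ) (χ₀ : ℂ), χ₀ ∈ K → Tendsto p atTop (𝓝 χ₀) →
        ∀ᶠ N : ℕ in atTop, ‖XF ls N (p N) -
          itN (fun _ => R₁ / 8) (cw ls) N n (WkF n N (p N)) 0‖ ≤
          Real.exp (N * ((G χ₀).re - c1 * r ^ 2 / 4 / 2)) := by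
      intro p χ₀ hχ₀ hpt
      have hi := hKim χ₀ hχ₀
      have hRχ := hKsub hχ₀
      have hPA := hPK χ₀ hχ₀
      obtain ⟨zz, hcr⟩ := hZ χ₀ hχ₀
      have hre : ∀ x ∈ Rc R₁ R₁, ∀ y ∈ Rc R₁ R₁, 7 / 4 * bet ≤ (s x y χ₀).re := fun x hx y hy =>
        hs3 x (rc_mono a6 hx) y (rc_mono a6 hy) χ₀ (rc_mono (by linarith) hRχ)
      have hre' : ∀ x ∈ Rc R₁ R₁, ∀ y ∈ Rc R₁ R₁, 3 / 2 * bet < (s x y χ₀).re :=
        fun x hx y hy => lt_of_lt_of_le (by linarith) (hre x hx y hy)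
      have hχ1 : χ₀ ∈ Rc R₁ R₁ := rc_mono (by linarith) hRχ
      -- far part
      have hfar := HFR n B' (fun x y => s x y χ₀) hn2 hPA (by
          intro ψ hψ ψ' hψ'
          have hψ0 : ψ ∈ Rc ρ₀ ρ₀ := rc_mono (by linarith) hψ
          have hψ'0 : ψ' ∈ Rc ρ₀ ρ₀ := rc_mono (by linarith) hψ'
          have hχ0 := hsub0 hRχ
          have hnorm : ‖ψ‖ < ρ₀ / 2 := by
            have := Complex.norm_le_abs_re_add_abs_im ψ
            linarith [hψ.1, hψ.2]
          have h1 := quad (f := fun w => s w ψ' χ₀) hρ0 (fun w hw =>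
            (s_diff1 hS hw hψ'0 hχ0).differentiableWithinAt)
            (fun w hw => hS.ev w hw ψ' hψ'0 χ₀ hχ0) (fun w hw => hS.sbd w hw ψ' hψ'0 χ₀ hχ0) hnorm
          have h2 := h1.trans (mul_le_mul_of_nonneg_right hBq (sq_nonneg ‖ψ‖))
          refine ⟨h2, ?_⟩
          beta_reduce at h2 ⊢
          rw [hS.sym ψ' hψ'0 ψ hψ0 χ₀ hχ0, hS.sym ψ' hψ'0 0 (rc_zero hρ0) χ₀ hχ0]
          exact h2)
        (cw ls) (fun j hj => hM3.trans (hcw j hj)) zz hcr (fun N x y => kF N x y (p N))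
        (fun N i hi' j hj => kF_sep N hi' hj _)
        (by
          intro ε hε
          filter_upwards [near_bd hS hρ10 HM HR' hbet a2 a3 hχ1 (by linarith) hpt hi hre' hε]
            with N h1 ψ hψ ψ' hψ'
          exact h1 ψ (rc_mono (by linarith) hψ) ψ' (rc_mono (by linarith) hψ'))
        (by
          have h := far1 hS hr0 HBq' HR' hbet (by linarith) (by linarith) hCr hqb b2 b3 hτ hτB'
            hτK' hτr hRχ hpt hi (fun y hy => hre 0 (rc_zero hR1) y (by rwa [h8r] at hy))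
          filter_upwards [h] with N h1 ψ ψ' h2 h3 h4 h5 h6
          rw [← hr] at h2 h5
          exact h1 ψ ψ' h2 h3 h4 h5 h6)
        (by
          have h := far2 hS hr0 HBq' HR' hbet (by linarith) (by linarith) hCr hqb b2 b3 hτ hτB'
            hτK' hτr hRχ hpt hi (fun y hy => hre 0 (rc_zero hR1) y (by rwa [h8r] at hy))
          filter_upwards [h] with N h1 ψ ψ' h2 h3 h4 h5 h6 h7
          rw [← hr] at h2 h5
          exact h1 ψ ψ' h2 h3 h4 h5 h6 h7)
      filter_upwards [hfar, gap_ev hpt hi, eventually_ge_atTop 2] with N h1 h2 h3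
      have h4 := hKFF N ls (p N) h3 hlsn (fun t ht1 ht2 => ph_ne h3 h2 ht1 ht2)
      have h5 : XF ls N (p N) = itI (cw ls) N n (WkF n N (p N)) 0 := by
        unfold XF
        rw [h4, ← mul_assoc, inv_mul_cancel₀, one_mul, hls2]
        have hN0 : (N : ℂ) ≠ 0 := by exact_mod_cast (by omega : N ≠ 0)
        have hπ0 : (π : ℂ) ≠ 0 := by exact_mod_cast Real.pi_ne_zero
        exact pow_ne_zero _ (div_ne_zero hN0 (mul_ne_zero two_ne_zero hπ0))
      rw [h5]
      have h6 : (Uj (Sg (fun x y => s x y χ₀) n) (cw ls) n (zz n 0)) = G χ₀ := hval χ₀ hχ₀ zz hcr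
      rw [h6] at h1
      exact h1
    have hseq := Pool.Agent.W583.HT.seq ℂ K hKc
      (fun N χ => Real.log ‖XF ls N χ‖ / N) (fun χ => (G χ).re) hGc (by
        intro p χ₀ hχ₀ hp hpt
        have hi := hKim χ₀ hχ₀
        have hRχ := hKsub hχ₀
        have hPA := hPK χ₀ hχ₀
        obtain ⟨zz, hcr⟩ := hZ χ₀ hχ₀
        have hre : ∀ x ∈ Rc R₁ R₁, ∀ y ∈ Rc R₁ R₁, 7 / 4 * bet ≤ (s x y χ₀).re := fun x hx y hy =>
          hs3 x (rc_mono a6 hx) y (rc_mono a6 hy) χ₀ (rc_mono (by linarith) hRχ)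
        have hre' : ∀ x ∈ Rc R₁ R₁, ∀ y ∈ Rc R₁ R₁, 3 / 2 * bet < (s x y χ₀).re :=
          fun x hx y hy => lt_of_lt_of_le (by linarith) (hre x hx y hy)
        have hχ1 : χ₀ ∈ Rc R₁ R₁ := rc_mono (by linarith) hRχ
        -- near part
        have hlimf := WkF_lim hS hρ10 HM HR' hbet a2 a3 (n := n) (by omega) hχ1 hpt hi hre'
        have hnear := HEL n B' _ _ hPA (cw ls) (fun j hj => hM2.trans (hcw j hj)) zz hcr
          (fun N => WkF n N (p N)) (fun N => WkF_sep (by omega) N _)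
          (fun ψ ψ₀ h1 h2 => hlimf ψ ψ₀ (bx_mono (by linarith) h1) h2) n le_rfl (fun _ => 0) 0
          (fun i _ => rc_zero (by positivity)) (fun i _ => tendsto_const_nhds)
        beta_reduce at hnear
        have hG0 := hval χ₀ hχ₀ zz hcr
        rw [hG0] at hnear
        have hpos := (hcr.close n le_rfl 0 (fun i _ => rc_zero (by positivity))).2
        rw [hG0] at hpos
        have hGp : 0 < (G χ₀).re := lt_of_lt_of_le (by positivity) hpos
        refine log_near (b := fun N => itN (fun _ => R₁ / 8) (cw ls) N n (WkF n N (p N)) 0)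
          (g' := (G χ₀).re - c1 * r ^ 2 / 4 / 2) (Cf := 1) hGp (by linarith) hnear ?_
        filter_upwards [hfs p χ₀ hχ₀ hpt] with N h1
        rw [one_mul]
        exact h1)
    have hfarK : ∀ᶠ N : ℕ in atTop, ∀ χ ∈ K, ‖XF ls N χ -
        itN (fun _ => R₁ / 8) (cw ls) N n (WkF n N χ) 0‖ ≤
        Real.exp (N * ((G χ).re - c1 * r ^ 2 / 4 / 4)) := by
      classical
      have h := Pool.Agent.W583.HT.seq ℂ K hKc (fun N χ => if ‖XF ls N χ -
        itN (fun _ => R₁ / 8) (cw ls) N n (WkF n N χ) 0‖ ≤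
        Real.exp (N * ((G χ).re - c1 * r ^ 2 / 4 / 4)) then 0 else 1) (fun _ => 0)
        continuousOn_const (by
          intro p χ₀ hχ₀ hp hpt
          have h1 : Tendsto (fun N => (G (p N)).re) atTop (𝓝 (G χ₀).re) :=
            (hGc χ₀ hχ₀).tendsto.comp
              (tendsto_nhdsWithin_iff.2 ⟨hpt, Filter.Eventually.of_forall hp⟩)
          have h2 := h1.eventually (lt_mem_nhds (show (G χ₀).re - c1 * r ^ 2 / 4 / 4 <
            (G χ₀).re by linarith))
          refine tendsto_const_nhds.congr' ?_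
          filter_upwards [hfs p χ₀ hχ₀ hpt, h2] with N h3 h4
          rw [if_pos]
          refine h3.trans (Real.exp_le_exp.2 (mul_le_mul_of_nonneg_left ?_ (Nat.cast_nonneg N)))
          linarith) (1 / 2) (by norm_num)
      filter_upwards [h] with N hN χ hχ
      by_contra hcon
      have h1 := hN χ hχ
      rw [if_neg hcon] at h1
      norm_num at h1
    have hexpK : ∃ A : ℕ → ℂ → ℂ, UX (fun N χ => Complex.exp (-(N * G χ)) *
        ((N : ℂ) ^ (2 * k) * XF ls N χ)) A K ∧ ∀ χ ∈ K, A 0 χ ≠ 0 := by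
      classical
      rcases K.eq_empty_or_nonempty with hKe | hKn
      · refine ⟨fun _ _ => 1, fun j => ⟨0, Filter.Eventually.of_forall fun N χ hχ => ?_⟩,
          fun χ hχ => ?_⟩
        · rw [hKe] at hχ; exact absurd hχ (by simp)
        · exact one_ne_zero
      obtain ⟨χm, hχm, hmin⟩ := hKc.exists_isMinOn hKn Complex.continuous_im.continuousOn
      have hη : 0 < χm.im := hKim χm hχm
      have hηK : ∀ χ ∈ K, χm.im ≤ χ.im := fun χ hχ => hmin hχ
      have hK1 : K ⊆ Rc R₁ R₁ := fun χ hχ => rc_mono (by linarith) (hKsub hχ)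
      have : CompactSpace ↥K := isCompact_iff_compactSpace.1 hKc
      choose zz hzz using fun e : ↥K => hZ e e.2
      obtain ⟨Bp, hBp, hPot⟩ := hPr n hn2
      obtain ⟨hcS, hcD⟩ := S_cont hn2 hPot (K := K) (fun χ hχ => rc_mono a11 (hK1 hχ))
      have hbxs : (Set.univ : Set ↥K) ×ˢ bx n R₁ ⊆ (Set.univ : Set ↥K) ×ˢ bx n R₀' :=
        fun x hx => ⟨hx.1, fun i => rc_mono a11 (hx.2 i)⟩
      have hgap : ∀ᶠ N : ℕ in atTop, 1 / (N : ℝ) ≤ χm.im :=
        (tendsto_one_div_atTop_nhds_zero_nat).eventually_le_const hη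
      obtain ⟨A, cA, hcA, hUX, hAnz, -⟩ := HQ ↥K n B' (fun e => Sx s n (e : ℂ))
        (fun e => Dx s n (e : ℂ)) (fun e => hPK e e.2) (hcS.mono hbxs)
        (fun j hj => (hcD j hj).mono hbxs) (cw ls) (fun j hj => hM6.trans (hcw j hj)) zz hzz
        (fun N e ψ => (Real.sqrt N : ℂ) ^ n * WkF n N (e : ℂ) ψ)
        (Filter.Eventually.of_forall fun N e => (Sep.const _).mul (WkF_sep (by omega) N _))
        (by
          filter_upwards [hgap, eventually_ge_atTop 2] with N h1 h2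
          exact continuous_const.mul (WkF_cont h2 (fun χ hχ t ht1 ht2 =>
            ph_ne h2 (gap_of (h1.trans (hηK χ hχ))) ht1 ht2) n))
        (fun r' hr' hr2' => exq_wkf hWX hS hρ2 hKX HR' hbet hR1 a10 a3 a9 hη hK1 hηK
          (fun x hx y hy χ hχ => hs3 x (rc_mono a6 hx) y (rc_mono a6 hy) χ
            (rc_mono a6 (hK1 hχ))) hn2 hr' (by linarith))
        n le_rfl (R₁ / 4) (by positivity) (by linarith)
      have hmain : ∀ N : ℕ, 1 ≤ N → ∀ χ : ℂ,
          (Real.sqrt N : ℂ) ^ n * (-1) ^ (N * n) * itN (fun _ => R₁ / 8) (cw ls) N n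
            (fun ψ => (Real.sqrt N : ℂ) ^ n * WkF n N χ ψ) 0 =
          (N : ℂ) ^ (2 * k) * itN (fun _ => R₁ / 8) (cw ls) N n (WkF n N χ) 0 := by
        intro N hN χ
        rw [Pool.Agent.Y304.PH.itN_smul (r := fun _ => R₁ / 8) (a := cw ls) hN
          (WkF_sep (n := n) (by omega) N χ) ((Real.sqrt N : ℂ) ^ n) (j := n) le_rfl 0]
        have h3 : ((-1 : ℂ)) ^ (N * n) = 1 := by
          rw [hn, show N * (2 * k) = 2 * (N * k) by ring, pow_mul]
          norm_num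
        have h4 : (Real.sqrt N : ℂ) ^ n * (Real.sqrt N : ℂ) ^ n = (N : ℂ) ^ (2 * k) := by
          rw [← mul_pow, ← Complex.ofReal_mul, Real.mul_self_sqrt (Nat.cast_nonneg N), ← hn]
          push_cast
          rfl
        rw [h3, mul_one, ← mul_assoc, h4]
      have h0B : (0 : ℕ → ℂ) ∈ Bx n (R₁ / 4) := fun i _ => rc_zero (by positivity)
      refine ⟨fun j χ => if h : χ ∈ K then A j (⟨χ, h⟩, 0) else 1, fun j => ?_, fun χ hχ => ?_⟩
      · obtain ⟨Cj, hCj⟩ := hUX j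
        refine ⟨Cj + 1, ?_⟩
        filter_upwards [hCj, hfarK, Pool.Agent.Y304.PH.exp_small (2 * k + j)
          (show 0 < c1 * r ^ 2 / 4 / 4 by positivity) 1, eventually_ge_atTop 1] with
          N h1 h2 h3 h4 χ hχ
        have hNp : (0 : ℝ) < N := by exact_mod_cast h4
        have e1 := h1 ((⟨χ, hχ⟩ : ↥K), (0 : ℕ → ℂ)) ⟨Set.mem_univ _, h0B⟩
        simp only at e1
        rw [hmain N h4 χ, hval χ hχ _ (hzz ⟨χ, hχ⟩)] at e1
        have e2 := h2 χ hχ
        simp only [dif_pos hχ]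
        have e5 : Complex.exp (-(N * G χ)) * ((N : ℂ) ^ (2 * k) * XF ls N χ) -
            ∑ i ∈ range j, A i (⟨χ, hχ⟩, 0) / (N : ℂ) ^ i =
          (Complex.exp (-(N * G χ)) * ((N : ℂ) ^ (2 * k) *
            itN (fun _ => R₁ / 8) (cw ls) N n (WkF n N χ) 0) -
            ∑ i ∈ range j, A i (⟨χ, hχ⟩, 0) / (N : ℂ) ^ i) +
          Complex.exp (-(N * G χ)) * (N : ℂ) ^ (2 * k) *
            (XF ls N χ - itN (fun _ => R₁ / 8) (cw ls) N n (WkF n N χ) 0) := by ring
        rw [e5, add_div]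
        refine (norm_add_le _ _).trans (add_le_add e1 ?_)
        rw [norm_mul, norm_mul, norm_pow, Complex.norm_natCast, Complex.norm_exp]
        have e7 : (-((N : ℂ) * G χ)).re = -(N * (G χ).re) := by
          rw [Complex.neg_re, ← Complex.ofReal_natCast, Complex.re_ofReal_mul]
        rw [e7, le_div_iff₀ (by positivity)]
        calc Real.exp (-(N * (G χ).re)) * (N : ℝ) ^ (2 * k) *
              ‖XF ls N χ - itN (fun _ => R₁ / 8) (cw ls) N n (WkF n N χ) 0‖ * (N : ℝ) ^ j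
            ≤ Real.exp (-(N * (G χ).re)) * (N : ℝ) ^ (2 * k) *
              Real.exp (N * ((G χ).re - c1 * r ^ 2 / 4 / 4)) * (N : ℝ) ^ j := by
                gcongr
          _ = (N : ℝ) ^ (2 * k + j) * (1 * (Real.exp (-(N * (G χ).re)) *
              Real.exp (N * ((G χ).re - c1 * r ^ 2 / 4 / 4)))) := by
                rw [pow_add]; ring
          _ = (N : ℝ) ^ (2 * k + j) * (1 * Real.exp (-(N * (c1 * r ^ 2 / 4 / 4)))) := by
                rw [← Real.exp_add]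
                congr 3
                ring
          _ ≤ 1 := h3
      · simp only [dif_pos hχ]
        intro h0
        have h := hAnz ((⟨χ, hχ⟩ : ↥K), (0 : ℕ → ℂ)) ⟨Set.mem_univ _, h0B⟩
        rw [h0, norm_zero] at h
        linarith
    refine ⟨?_, hexpK⟩
    intro ε hε
    -- a lower bound of `Re G`
    rcases K.eq_empty_or_nonempty with hKe | hKn
    · exact Filter.Eventually.of_forall fun N χ hχ => by rw [hKe] at hχ; exact absurd hχ (by simp)
    have hGpos : ∀ χ ∈ K, p₀ * n / 2 ≤ (G χ).re := by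
      intro χ hχ
      have hPA := potA_mono (hPB χ (rc_mono (by linarith) (hKsub hχ))) hBB0
      obtain ⟨zz, hcr⟩ := HCR n B' _ _ hPA (cw ls) fun j hj => hM1.trans (hcw j hj)
      have hpos := (hcr.close n le_rfl 0 (fun i _ => rc_zero (by positivity))).2
      rw [hval χ hχ zz hcr] at hpos
      exact hpos
    have hpn : 0 < p₀ * n := by positivity
    filter_upwards [hseq (min ε (p₀ * n / 4)) (lt_min hε (by positivity)),
      eventually_ge_atTop 1] with N hN h1 χ hχ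
    have hNp : (0 : ℝ) < N := by exact_mod_cast h1
    have h2 := hN χ hχ
    have h3 := hGpos χ hχ
    refine ⟨?_, ?_⟩
    · intro h0
      have h4 := h2.trans (min_le_right _ _)
      simp only [h0, norm_zero, Real.log_zero, zero_div, zero_sub, abs_neg] at h4
      have h5 := le_abs_self (G χ).re
      linarith
    · have h4 := h2.trans (min_le_left _ _)
      have h5 : Real.log ‖XF ls N χ‖ / N - (G χ).re =
          (Real.log ‖XF ls N χ‖ - N * (G χ).re) / N := by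
        field_simp
      rw [h5, abs_div, abs_of_pos hNp, div_le_iff₀ hNp] at h4
      exact h4
  · intro χ hχ
    obtain ⟨h1, h2, h3⟩ := hG2 χ (hsub hχ)
    rw [← hn]
    refine ⟨fun j hj => ?_, h2, h3⟩
    obtain ⟨q1, q2, q3, q4, q5⟩ := h1 j hj
    exact ⟨rc_mono (by linarith) q2, q3, q4, q5⟩
  · intro m hm hm0 χ hχ
    have h := hG3 m (fun j hj => cw_bound hm (by rw [hls]; omega)) hm0 χ (hsub hχ)
    rw [hnC, hnk] at h
    refine h.trans (le_of_eq ?_)
    ring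

end Pool.Agent.Y833.CJ
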