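import Pool.Agent.Y472.J.Defs2
import Pool.Agent.Y809.CH.Xfa
import Pool.Agent.Y304.PH.Xlx

/-!
# CB3-J-XFAQ, part 1: the full kernel near the origin, with expansions
-/

set_option autoImplicit false

namespace Pool.Agent.Y833.CJ

open Finset Filter Topology Metric
open Pool.Agent.W711.HT
open Pool.Agent.Y472
open Pool.Agent.Y481 (itI itN Sep wts cw)
open Pool.Agent.W719.AX (UX EXY)
open Pool.Agent.Y482.Ph (EXL GXc S_LOCN S_WX KXD3 S_EXP kx3)
open Pool.Agent.Y674.CB Pool.Agent.Y809.CH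
open scoped Real

/-! ### Products -/

lemma prod_near (n : ℕ) {a b : ℕ → ℂ} {C δ : ℝ} (hC : 0 ≤ C) (hδ : 0 ≤ δ) (hδ1 : δ ≤ 1)
    (ha : ∀ j < n, ‖a j‖ ≤ C) (hab : ∀ j < n, ‖b j - a j‖ ≤ δ) :
    ‖∏ j ∈ range n, b j - ∏ j ∈ range n, a j‖ ≤ n * (C + 1) ^ n * δ := by
  induction n with
  | zero => simp
  | succ n ih =>
    have h1 := ih (fun j hj => ha j (by omega)) fun j hj => hab j (by omega)
    rw [prod_range_succ, prod_range_succ]
    have e : (∏ j ∈ range n, b j) * b n - (∏ j ∈ range n, a j) * a n =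
        (∏ j ∈ range n, b j - ∏ j ∈ range n, a j) * b n + (∏ j ∈ range n, a j) * (b n - a n) := by
      ring
    rw [e]
    have h2 : ‖b n‖ ≤ C + 1 := by
      have h3 := norm_add_le (a n) (b n - a n)
      rw [add_sub_cancel] at h3
      linarith [ha n (by omega), hab n (by omega)]
    have h3 : ‖∏ j ∈ range n, a j‖ ≤ (C + 1) ^ n := by
      rw [norm_prod]
      calc ∏ j ∈ range n, ‖a j‖ ≤ ∏ _j ∈ range n, (C + 1) := by
            refine prod_le_prod (fun _ _ => norm_nonneg _) fun j hj => ?_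
            have := mem_range.1 hj
            linarith [ha j (by omega)]
        _ = _ := by rw [prod_const, card_range]
    refine (norm_add_le _ _).trans ?_
    rw [norm_mul, norm_mul]
    have hC1 : 1 ≤ C + 1 := by linarith
    calc ‖∏ j ∈ range n, b j - ∏ j ∈ range n, a j‖ * ‖b n‖ + ‖∏ j ∈ range n, a j‖ * ‖b n - a n‖
        ≤ (n * (C + 1) ^ n * δ) * (C + 1) + (C + 1) ^ n * δ := by
          refine add_le_add (mul_le_mul h1 h2 (norm_nonneg _) (by positivity))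
            (mul_le_mul h3 (hab n (by omega)) (norm_nonneg _) (by positivity))
      _ ≤ (n * (C + 1) ^ n * δ) * (C + 1) + (C + 1) ^ (n + 1) * δ := by
          have : (C + 1) ^ n ≤ (C + 1) ^ (n + 1) := pow_le_pow_right₀ hC1 (by omega)
          gcongr
      _ = ((n + 1 : ℕ) : ℝ) * (C + 1) ^ (n + 1) * δ := by
          push_cast
          ring

/-- the normalised product over the ring -/
lemma ring_prod (n N : ℕ) (s k : ℕ → ℂ) :
    ∏ j ∈ range n, ((Real.sqrt N : ℂ) * Complex.exp (-(N * s j)) * k j) =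
      Complex.exp (-(N * ∑ j ∈ range n, s j)) * ((Real.sqrt N : ℂ) ^ n * ∏ j ∈ range n, k j) := by
  rw [prod_mul_distrib, prod_mul_distrib, prod_const, card_range, ← Complex.exp_sum]
  have : ∑ j ∈ range n, -((N : ℂ) * s j) = -(N * ∑ j ∈ range n, s j) := by
    rw [sum_neg_distrib, mul_sum]
  rw [this]
  ring

/-! ### The full kernel and the kernel -/

/-- the products of the full kernels and of the kernels over the ring are close -/
lemma wkf_near {ρ₂ τK r : ℝ} {s : ℂ → ℂ → ℂ → ℂ} {A : ℕ → ℂ × ℂ × ℂ → ℂ} (hX : KXD3 ρ₂ s A)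
    (HR : RK τK) (hbet : 0 < bet) (hr1 : r ≤ ρ₂) (hr2 : r ≤ τK) (hr3 : r ≤ 1) {K : Set ℂ}
    {η : ℝ} (hη : 0 < η) (hKr : K ⊆ Rc r r) (hKi : ∀ χ ∈ K, η ≤ χ.im)
    (hre : ∀ x ∈ Rc r r, ∀ y ∈ Rc r r, ∀ χ ∈ K, 7 / 4 * bet ≤ (s x y χ).re) {n : ℕ}
    (hn : 2 ≤ n) : ∃ D : ℝ, 0 ≤ D ∧ ∀ᶠ N : ℕ in atTop, ∀ χ ∈ K, ∀ ψ ∈ Bx n r,
      ‖Complex.exp (-(N * Sx s n χ ψ)) * ((Real.sqrt N : ℂ) ^ n * WkF n N χ ψ) -
        Complex.exp (-(N * Sx s n χ ψ)) * ((Real.sqrt N : ℂ) ^ n * Wk n N χ ψ)‖ ≤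
        D * (Real.sqrt N * Real.exp (-(N * (bet / 4)))) := by
  have hπ := Real.pi_gt_three
  obtain ⟨C, hC⟩ := hX.ux 0
  have hm : ∀ j, (j + 1) % n < n := fun j => Nat.mod_lt _ (by omega)
  have hg : ∀ᶠ N : ℕ in atTop, 1 / (N : ℝ) ≤ η :=
    (tendsto_one_div_atTop_nhds_zero_nat).eventually_le_const hη
  have hsm : ∀ᶠ N : ℕ in atTop, Real.sqrt N * Real.exp (-(N * (bet / 4))) ≤ 1 := by
    filter_upwards [Pool.Agent.Y304.PH.exp_small 1 (show 0 < bet / 4 by positivity) 1,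
      eventually_ge_atTop 1] with N h1 h2
    have h3 : (1 : ℝ) ≤ N := by exact_mod_cast h2
    have h4 : Real.sqrt N ≤ N := by
      rw [Real.sqrt_le_left (by linarith)]
      nlinarith
    rw [pow_one, one_mul] at h1
    exact (mul_le_mul_of_nonneg_right h4 (Real.exp_pos _).le).trans h1
  refine ⟨n * (|C| + 1) ^ n, by positivity, ?_⟩
  filter_upwards [hC, HR, hg, hsm, eventually_ge_atTop 1] with N h1 h2 h3 h4 h5 χ hχ ψ hψ
  have hN : (0 : ℝ) < N := by exact_mod_cast h5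
  have hχr := hKr hχ
  have e1 := ring_prod n N (fun j => s (ψ j) (ψ ((j + 1) % n)) χ)
    (fun j => kF N (ψ j) (ψ ((j + 1) % n)) χ)
  have e2 := ring_prod n N (fun j => s (ψ j) (ψ ((j + 1) % n)) χ)
    (fun j => kh N (ψ j) (ψ ((j + 1) % n)) χ)
  have e3 : Sx s n χ ψ = ∑ j ∈ range n, s (ψ j) (ψ ((j + 1) % n)) χ := rfl
  have e4 : WkF n N χ ψ = ∏ j ∈ range n, kF N (ψ j) (ψ ((j + 1) % n)) χ := rfl
  have e5 : Wk n N χ ψ = ∏ j ∈ range n, kh N (ψ j) (ψ ((j + 1) % n)) χ := rfl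
  rw [e3, e4, e5, ← e1, ← e2]
  refine prod_near n (abs_nonneg C) (by positivity) h4 (fun j hj => ?_) fun j hj => ?_
  · have h6 := h1 (ψ j, ψ ((j + 1) % n), χ) ⟨rc_mono hr1 (hψ j hj), rc_mono hr1 (hψ _ (hm j)),
      rc_mono hr1 hχr⟩
    rw [range_zero, sum_empty, sub_zero, pow_zero, div_one] at h6
    exact h6.trans (le_abs_self C)
  · have hx := hψ j hj
    have hy := hψ _ (hm j)
    rw [← mul_sub, norm_mul, norm_mul, Complex.norm_real, Real.norm_of_nonneg (Real.sqrt_nonneg _),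
      Complex.norm_exp, mul_assoc]
    refine mul_le_mul_of_nonneg_left ?_ (Real.sqrt_nonneg _)
    have h6 := h2 (ψ j) (ψ ((j + 1) % n)) χ (by linarith [hx.1]) (hx.2.le.trans hr2)
      (by linarith [hy.1]) (hy.2.le.trans hr2) (by linarith [hχr.1]) (by linarith [hχr.2])
      (gap_of (h3.trans (hKi χ hχ)))
    have h7 : (-((N : ℂ) * s (ψ j) (ψ ((j + 1) % n)) χ)).re =
        -(N * (s (ψ j) (ψ ((j + 1) % n)) χ).re) := by
      rw [Complex.neg_re, ← Complex.ofReal_natCast, Complex.re_ofReal_mul]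
    rw [h7]
    calc Real.exp (-(N * (s (ψ j) (ψ ((j + 1) % n)) χ).re)) *
          ‖kF N (ψ j) (ψ ((j + 1) % n)) χ - kh N (ψ j) (ψ ((j + 1) % n)) χ‖
        ≤ Real.exp (-(N * (s (ψ j) (ψ ((j + 1) % n)) χ).re)) *
          Real.exp (N * (bet + bet / 2)) := mul_le_mul_of_nonneg_left h6 (Real.exp_pos _).le
      _ = Real.exp (-(N * (s (ψ j) (ψ ((j + 1) % n)) χ).re) + N * (bet + bet / 2)) := by
          rw [← Real.exp_add]
      _ ≤ Real.exp (-(N * (bet / 4))) := by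
          apply Real.exp_le_exp.2
          have h8 := mul_le_mul_of_nonneg_left (hre _ hx _ hy χ hχ) hN.le
          linarith

/-! ### The parameter -/

lemma ex_cont (n : ℕ) {E : Type} [TopologicalSpace E] (i : ℕ) :
    Continuous fun x : E × (Fin n → ℂ) => ex n x.2 i := by
  unfold ex
  by_cases h : i < n
  · simp only [dif_pos h]
    exact (continuous_apply _).comp continuous_snd
  · simp only [dif_neg h]
    exact continuous_const

lemma kF_cont {N : ℕ} (_hN : 2 ≤ N) {K : Set ℂ} (hK : ∀ χ ∈ K, ∀ t : ℕ, 1 ≤ t → t < N → Ph N χ t ≠ 0)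
    {n : ℕ} (i j : ℕ) : Continuous fun x : ↥K × (Fin n → ℂ) =>
      kF N (ex n x.2 i) (ex n x.2 j) (x.1 : ℂ) := by
  have hc : Continuous fun x : ↥K × (Fin n → ℂ) => (x.1 : ℂ) :=
    continuous_subtype_val.comp continuous_fst
  unfold kF
  refine continuous_finsetSum _ fun d hd => ?_
  rw [mem_range] at hd
  refine Continuous.div ?_ ?_ ?_
  · exact (((Rp_diff N d).continuous.comp (ex_cont n i)).mul
      ((Rp_diff N d).continuous.comp (ex_cont n j))).mul ((Tg_diff N 0).continuous.comp hc)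
  · refine continuous_finsetProd _ fun t _ => ?_
    unfold Ph
    exact continuous_const.mul ((continuous_const.mul (Complex.continuous_cos.comp hc)).sub
      continuous_const)
  · intro x
    rw [prod_ne_zero_iff]
    intro t ht
    rw [mem_Ioc] at ht
    exact hK _ x.1.2 t (by omega) (by omega)

lemma WkF_cont {N : ℕ} (hN : 2 ≤ N) {K : Set ℂ}
    (hK : ∀ χ ∈ K, ∀ t : ℕ, 1 ≤ t → t < N → Ph N χ t ≠ 0) (n : ℕ) :
    Continuous fun x : ↥K × (Fin n → ℂ) => WkF n N (x.1 : ℂ) (ex n x.2) := by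
  unfold WkF
  exact continuous_finsetProd _ fun j _ => kF_cont hN hK _ _

/-- all variables of the ring -/
noncomputable def yy (n : ℕ) {E : Type} (v : E → ℂ) (x : E × (Fin n → ℂ)) : Fin (n + 1) → ℂ :=
  fun i => Function.update (ex n x.2) n (v x.1) i

lemma ex_yy (n : ℕ) {E : Type} (v : E → ℂ) (x : E × (Fin n → ℂ)) :
    ex (n + 1) (yy n v x) = Function.update (ex n x.2) n (v x.1) := by
  funext i
  unfold ex yy
  by_cases h : i < n + 1
  · rw [dif_pos h]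
    rfl
  · rw [dif_neg h, Function.update_of_ne (by omega), dif_neg (by omega)]

lemma yy_cont (n : ℕ) {E : Type} [TopologicalSpace E] {v : E → ℂ} (hv : Continuous v) :
    Continuous (yy n v) := by
  unfold yy
  refine continuous_pi fun i => ?_
  by_cases h : (i : ℕ) = n
  · simp only [h, Function.update_self]
    exact hv.comp continuous_fst
  · simp only [Function.update_of_ne h]
    exact ex_cont n _

lemma Sx_eq (s : ℂ → ℂ → ℂ → ℂ) {n : ℕ} (hn : 2 ≤ n) (χ : ℂ) (ψ : ℕ → ℂ) :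
    Sx s n χ ψ = Sr s n (Function.update ψ n χ) := by
  unfold Sx Sr
  refine sum_congr rfl fun i hi => ?_
  rw [mem_range] at hi
  have : (i + 1) % n < n := Nat.mod_lt _ (by omega)
  rw [Function.update_self, Function.update_of_ne (by omega), Function.update_of_ne (by omega)]

lemma Dx_eq (s : ℂ → ℂ → ℂ → ℂ) {n : ℕ} (hn : 2 ≤ n) (χ : ℂ) (ψ : ℕ → ℂ) {j : ℕ} (hj : j < n) :
    Dx s n χ j ψ = Dr s n j (Function.update ψ n χ) := by
  unfold Dx Dr
  rw [Function.update_of_ne (by omega)]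
  congr 1
  funext w
  rw [Sx_eq s hn, Function.update_comm (by omega)]

lemma S_cont {s : ℂ → ℂ → ℂ → ℂ} {n : ℕ} (hn : 2 ≤ n) {R c B p₀ : ℝ}
    (hP : Pot (n + 1) R c B p₀ (Sr s n) (Dr s n)) {K : Set ℂ} (hK : K ⊆ Rc R R) :
    ContinuousOn (fun x : ↥K × (Fin n → ℂ) => Sx s n (x.1 : ℂ) (ex n x.2)) (Set.univ ×ˢ bx n R) ∧
    ∀ j < n, ContinuousOn (fun x : ↥K × (Fin n → ℂ) => Dx s n (x.1 : ℂ) j (ex n x.2))
      (Set.univ ×ˢ bx n R) := by
  have hv : Continuous (fun e : ↥K => (e : ℂ)) := continuous_subtype_val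
  have hm : Set.MapsTo (yy n (fun e : ↥K => (e : ℂ))) (Set.univ ×ˢ bx n R) (bx (n + 1) R) := by
    rintro x ⟨_, hx⟩ i
    unfold yy
    by_cases h : (i : ℕ) = n
    · rw [h, Function.update_self]
      exact hK x.1.2
    · rw [Function.update_of_ne h]
      unfold ex
      have hi : (i : ℕ) < n := by omega
      rw [dif_pos hi]
      exact hx _
  constructor
  · have h := hP.an.continuousOn.comp (yy_cont n hv).continuousOn hm
    refine h.congr fun x _ => ?_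
    show Sx s n (x.1 : ℂ) (ex n x.2) = Sr s n (ex (n + 1) (yy n (fun e : ↥K => (e : ℂ)) x))
    rw [ex_yy, Sx_eq s hn]
  · intro j hj
    have h := (hP.dan j (by omega)).continuousOn.comp (yy_cont n hv).continuousOn hm
    refine h.congr fun x _ => ?_
    show Dx s n (x.1 : ℂ) j (ex n x.2) = Dr s n j (ex (n + 1) (yy n (fun e : ↥K => (e : ℂ)) x))
    rw [ex_yy, Dx_eq s hn _ _ hj]

/-- the expansion of the product of the full kernels -/
lemma exq_wkf {ρ₀ c C ρ₂ τK R₁ : ℝ} {s dl : ℂ → ℂ → ℂ → ℂ} {A₂ : ℕ → ℂ × ℂ × ℂ → ℂ}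
    (hWX : S_WX) (hS : SD3 ρ₀ c C s dl) (hρ : ρ₂ ≤ ρ₀) (hX : KXD3 ρ₂ s A₂)
    (HR : RK τK) (hbet : 0 < bet) (hR0 : 0 < R₁) (hr1 : R₁ ≤ ρ₂) (hr2 : R₁ ≤ τK) (hr3 : R₁ ≤ 1)
    {K : Set ℂ} {η : ℝ} (hη : 0 < η) (hKr : K ⊆ Rc R₁ R₁) (hKi : ∀ χ ∈ K, η ≤ χ.im)
    (hre : ∀ x ∈ Rc R₁ R₁, ∀ y ∈ Rc R₁ R₁, ∀ χ ∈ K, 7 / 4 * bet ≤ (s x y χ).re) {n : ℕ}
    (hn : 2 ≤ n) {r : ℝ} (_hr : 0 < r) (hr : r ≤ R₁) :
    EXQ ↥K n r (fun N e ψ => (Real.sqrt N : ℂ) ^ n * WkF n N (e : ℂ) ψ)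
      (fun e => Sx s n (e : ℂ)) := by
  obtain ⟨A, c₁, hc₁, hux, hnz, hd⟩ := hWX ρ₀ c C s dl hS ρ₂ A₂ hρ hX n hn R₁ hR0 hr1
  obtain ⟨D, hD0, hD⟩ := wkf_near hX HR hbet hr1 hr2 hr3 hη hKr hKi hre hn
  have hmem : ∀ (e : ↥K) (ψ : ℕ → ℂ), ψ ∈ Bx n r → Function.update ψ n (e : ℂ) ∈ Bx (n + 1) R₁ := by
    intro e ψ hψ i hi
    by_cases h : i = n
    · rw [h, Function.update_self]
      exact hKr e.2
    · rw [Function.update_of_ne h]
      exact rc_mono hr (hψ i (by omega))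
  refine ⟨fun k p => A k (Function.update p.2 n (p.1 : ℂ)), c₁, hc₁, ?_, ?_, ?_⟩
  · intro k
    obtain ⟨Ck, hCk⟩ := hux k
    refine ⟨Ck + 1, ?_⟩
    filter_upwards [hCk, hD, Pool.Agent.Y304.PH.exp_small (k + 1)
      (show 0 < bet / 4 by positivity) D, eventually_ge_atTop 1] with N h1 h2 h3 h4 p hp
    have hN : (1 : ℝ) ≤ N := by exact_mod_cast h4
    have hN0 : (0 : ℝ) < N := by linarith
    have hpm := hmem p.1 p.2 hp.2
    have h5 := h1 _ hpm
    have h6 := h2 (p.1 : ℂ) p.1.2 p.2 fun i hi => rc_mono hr (hp.2 i hi)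
    have e1 : Sr s n (Function.update p.2 n (p.1 : ℂ)) = Sx s n (p.1 : ℂ) p.2 :=
      (Sx_eq s hn _ _).symm
    have e2 : Wk n N (Function.update p.2 n (p.1 : ℂ) n) (Function.update p.2 n (p.1 : ℂ)) =
        Wk n N (p.1 : ℂ) p.2 := by
      unfold Wk
      refine prod_congr rfl fun i hi => ?_
      rw [mem_range] at hi
      have : (i + 1) % n < n := Nat.mod_lt _ (by omega)
      rw [Function.update_self, Function.update_of_ne (by omega), Function.update_of_ne (by omega)]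
    rw [e1, e2] at h5
    have h7 : D * (Real.sqrt N * Real.exp (-(N * (bet / 4)))) ≤ 1 / (N : ℝ) ^ k := by
      rw [le_div_iff₀ (by positivity)]
      refine le_trans ?_ h3
      have h8 : Real.sqrt N ≤ N := by
        rw [Real.sqrt_le_left (by linarith)]
        nlinarith
      calc D * (Real.sqrt N * Real.exp (-(N * (bet / 4)))) * (N : ℝ) ^ k
          ≤ D * (N * Real.exp (-(N * (bet / 4)))) * (N : ℝ) ^ k := by
            gcongr
        _ = (N : ℝ) ^ (k + 1) * (D * Real.exp (-(N * (bet / 4)))) := by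
            rw [pow_succ]
            ring
    have e3 : Complex.exp (-(N * Sx s n (p.1 : ℂ) p.2)) * ((Real.sqrt N : ℂ) ^ n *
          WkF n N (p.1 : ℂ) p.2) -
        ∑ j ∈ range k, A j (Function.update p.2 n (p.1 : ℂ)) / (N : ℂ) ^ j =
        (Complex.exp (-(N * Sx s n (p.1 : ℂ) p.2)) * ((Real.sqrt N : ℂ) ^ n *
          Wk n N (p.1 : ℂ) p.2) -
          ∑ j ∈ range k, A j (Function.update p.2 n (p.1 : ℂ)) / (N : ℂ) ^ j) +
        (Complex.exp (-(N * Sx s n (p.1 : ℂ) p.2)) * ((Real.sqrt N : ℂ) ^ n *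
          WkF n N (p.1 : ℂ) p.2) - Complex.exp (-(N * Sx s n (p.1 : ℂ) p.2)) *
          ((Real.sqrt N : ℂ) ^ n * Wk n N (p.1 : ℂ) p.2)) := by ring
    rw [e3, add_div]
    exact (norm_add_le _ _).trans (add_le_add h5 (h6.trans h7))
  · rintro p ⟨_, hp⟩
    exact hnz _ (hmem p.1 p.2 hp)
  · intro k e ψ hψ i hi
    have h := (hd k (Function.update ψ n (e : ℂ)) (hmem e ψ hψ) i (by omega)).mono (rc_mono hr)
    refine h.congr fun w _ => ?_
    rw [Function.update_comm (by omega)]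

end Pool.Agent.Y833.CJ
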